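import Pool.Agent.NNr.R13_1_4_5.D0
import Pool.Agent.NNr.R13_1_4_5.D1
import Pool.Agent.NNe.Slots

set_option linter.all false
set_option maxRecDepth 1000000
namespace Pool.Agent.NNr.R13_1_4_5

open Pool.Agent.NNe

def st1_12_0 : starCk (nat_lit 59) (nat_lit 5) (nat_lit 1) (nat_lit 2) (nat_lit 308) (nat_lit 362) (nat_lit 4096) C1_12 = true := by decide +kernel
def sc1_12 : stCov (nat_lit 3) (nat_lit 362) (Rl.cons (nat_lit 362) (nat_lit 308) Rl.nil) C1_12 = true := by decide +kernel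
def wf1_13 : wfC (nat_lit 59) (nat_lit 5) C1_13 = true := by decide +kernel
def rf1_13 : rfCk (nat_lit 59) (nat_lit 5) (nat_lit 59) (nat_lit 5) (nat_lit 1) (nat_lit 262144) (nat_lit 13) TL1 CL0 CL1 = true := by decide +kernel
def st1_13_0 : starCk (nat_lit 59) (nat_lit 5) (nat_lit 1) (nat_lit 2) (nat_lit 144) (nat_lit 332) (nat_lit 16) C1_13 = true := by decide +kernel
def sc1_13 : stCov (nat_lit 1) (nat_lit 332) (Rl.cons (nat_lit 332) (nat_lit 144) Rl.nil) C1_13 = true := by decide +kernel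
def wf1_14 : wfC (nat_lit 59) (nat_lit 5) C1_14 = true := by decide +kernel
def rf1_14 : rfCk (nat_lit 59) (nat_lit 5) (nat_lit 59) (nat_lit 5) (nat_lit 1) (nat_lit 262144) (nat_lit 14) TL1 CL0 CL1 = true := by decide +kernel
def st1_14_0 : starCk (nat_lit 59) (nat_lit 5) (nat_lit 1) (nat_lit 2) (nat_lit 160) (nat_lit 332) (nat_lit 16) C1_14 = true := by decide +kernel
def sc1_14 : stCov (nat_lit 1) (nat_lit 332) (Rl.cons (nat_lit 332) (nat_lit 160) Rl.nil) C1_14 = true := by decide +kernel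
def wf1_15 : wfC (nat_lit 59) (nat_lit 5) C1_15 = true := by decide +kernel
def rf1_15 : rfCk (nat_lit 59) (nat_lit 5) (nat_lit 59) (nat_lit 5) (nat_lit 1) (nat_lit 262144) (nat_lit 15) TL1 CL0 CL1 = true := by decide +kernel
def st1_15_0 : starCk (nat_lit 59) (nat_lit 5) (nat_lit 1) (nat_lit 2) (nat_lit 90) (nat_lit 236) (nat_lit 256) C1_15 = true := by decide +kernel
def sc1_15 : stCov (nat_lit 2) (nat_lit 236) (Rl.cons (nat_lit 236) (nat_lit 90) Rl.nil) C1_15 = true := by decide +kernel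
def wf1_16 : wfC (nat_lit 59) (nat_lit 5) C1_16 = true := by decide +kernel
def rf1_16 : rfCk (nat_lit 59) (nat_lit 5) (nat_lit 59) (nat_lit 5) (nat_lit 1) (nat_lit 262144) (nat_lit 16) TL1 CL0 CL1 = true := by decide +kernel
def st1_16_0 : starCk (nat_lit 59) (nat_lit 5) (nat_lit 1) (nat_lit 2) (nat_lit 80) (nat_lit 212) (nat_lit 16) C1_16 = true := by decide +kernel
def sc1_16 : stCov (nat_lit 1) (nat_lit 212) (Rl.cons (nat_lit 212) (nat_lit 80) Rl.nil) C1_16 = true := by decide +kernel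
def ti1_0 : tileCk (nat_lit 59) (nat_lit 5) (nat_lit 2) (nat_lit 2) (nat_lit 416) (nat_lit 13) (nat_lit 18) ZL1_0 CL1 = true := by decide +kernel
def zl1_0 : zlOK (nat_lit 416) ZL1_0 = true := by decide +kernel

end Pool.Agent.NNr.R13_1_4_5
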