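import Pool.Agent.NNr.R13_1_4_5.D1
import Pool.Agent.NNr.R13_1_4_5.D2

set_option linter.all false
set_option maxRecDepth 1000000
namespace Pool.Agent.NNr.R13_1_4_5

open Pool.Agent.NNe

def ti1_1 : tileCk (nat_lit 59) (nat_lit 5) (nat_lit 2) (nat_lit 2) (nat_lit 416) (nat_lit 13) (nat_lit 18) ZL1_1 CL1 = true := by decide +kernel
def zl1_1 : zlOK (nat_lit 416) ZL1_1 = true := by decide +kernel
def tc1_0 : tiCov (nat_lit 1) (nat_lit 0) ZZ1 C1_0 = true := by decide +kernel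
def tc1_1 : tiCov (nat_lit 1) (nat_lit 1) ZZ1 C1_1 = true := by decide +kernel
def tc1_2 : tiCov (nat_lit 1) (nat_lit 2) ZZ1 C1_2 = true := by decide +kernel
def tc1_3 : tiCov (nat_lit 1) (nat_lit 3) ZZ1 C1_3 = true := by decide +kernel
def tc1_4 : tiCov (nat_lit 1) (nat_lit 4) ZZ1 C1_4 = true := by decide +kernel
def tc1_5 : tiCov (nat_lit 1) (nat_lit 5) ZZ1 C1_5 = true := by decide +kernel
def tc1_6 : tiCov (nat_lit 1) (nat_lit 6) ZZ1 C1_6 = true := by decide +kernel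
def tc1_7 : tiCov (nat_lit 1) (nat_lit 7) ZZ1 C1_7 = true := by decide +kernel
def tc1_8 : tiCov (nat_lit 1) (nat_lit 8) ZZ1 C1_8 = true := by decide +kernel
def tc1_12 : tiCov (nat_lit 1) (nat_lit 12) ZZ1 C1_12 = true := by decide +kernel
def tc1_13 : tiCov (nat_lit 1) (nat_lit 13) ZZ1 C1_13 = true := by decide +kernel
def tc1_14 : tiCov (nat_lit 1) (nat_lit 14) ZZ1 C1_14 = true := by decide +kernel
def tc1_15 : tiCov (nat_lit 1) (nat_lit 15) ZZ1 C1_15 = true := by decide +kernel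
def tc1_16 : tiCov (nat_lit 1) (nat_lit 16) ZZ1 C1_16 = true := by decide +kernel
def wf2_0 : wfC (nat_lit 61) (nat_lit 11) C2_0 = true := by decide +kernel
def rf2_0 : rfCk (nat_lit 59) (nat_lit 5) (nat_lit 61) (nat_lit 11) (nat_lit 9) (nat_lit 0) (nat_lit 0) TL2 CL1 CL2 = true := by decide +kernel
def st2_0_0 : starCk (nat_lit 61) (nat_lit 11) (nat_lit 1) (nat_lit 5) (nat_lit 11) (nat_lit 0) (nat_lit 256) C2_0 = true := by decide +kernel
def sc2_0 : stCov (nat_lit 2) (nat_lit 0) (Rl.cons (nat_lit 0) (nat_lit 11) Rl.nil) C2_0 = true := by decide +kernel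
def wf2_1 : wfC (nat_lit 61) (nat_lit 11) C2_1 = true := by decide +kernel
def rf2_1 : rfCk (nat_lit 59) (nat_lit 5) (nat_lit 61) (nat_lit 11) (nat_lit 9) (nat_lit 0) (nat_lit 1) TL2 CL1 CL2 = true := by decide +kernel
def st2_1_0 : starCk (nat_lit 61) (nat_lit 11) (nat_lit 1) (nat_lit 5) (nat_lit 12) (nat_lit 0) (nat_lit 16) C2_1 = true := by decide +kernel
def sc2_1 : stCov (nat_lit 1) (nat_lit 0) (Rl.cons (nat_lit 0) (nat_lit 12) Rl.nil) C2_1 = true := by decide +kernel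
def wf2_2 : wfC (nat_lit 61) (nat_lit 11) C2_2 = true := by decide +kernel
def rf2_2 : rfCk (nat_lit 59) (nat_lit 5) (nat_lit 61) (nat_lit 11) (nat_lit 9) (nat_lit 0) (nat_lit 2) TL2 CL1 CL2 = true := by decide +kernel
def st2_2_0 : starCk (nat_lit 61) (nat_lit 11) (nat_lit 1) (nat_lit 5) (nat_lit 24) (nat_lit 65) (nat_lit 16) C2_2 = true := by decide +kernel
def sc2_2 : stCov (nat_lit 1) (nat_lit 65) (Rl.cons (nat_lit 65) (nat_lit 24) Rl.nil) C2_2 = true := by decide +kernel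
def wf2_3 : wfC (nat_lit 61) (nat_lit 11) C2_3 = true := by decide +kernel
def rf2_3 : rfCk (nat_lit 59) (nat_lit 5) (nat_lit 61) (nat_lit 11) (nat_lit 9) (nat_lit 0) (nat_lit 3) TL2 CL1 CL2 = true := by decide +kernel
def st2_3_0 : starCk (nat_lit 61) (nat_lit 11) (nat_lit 1) (nat_lit 5) (nat_lit 27) (nat_lit 177) (nat_lit 256) C2_3 = true := by decide +kernel
def sc2_3 : stCov (nat_lit 2) (nat_lit 177) (Rl.cons (nat_lit 177) (nat_lit 27) Rl.nil) C2_3 = true := by decide +kernel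
def wf2_4 : wfC (nat_lit 61) (nat_lit 11) C2_4 = true := by decide +kernel
def rf2_4 : rfCk (nat_lit 59) (nat_lit 5) (nat_lit 61) (nat_lit 11) (nat_lit 9) (nat_lit 0) (nat_lit 4) TL2 CL1 CL2 = true := by decide +kernel
def st2_4_0 : starCk (nat_lit 61) (nat_lit 11) (nat_lit 1) (nat_lit 5) (nat_lit 14) (nat_lit 146) (nat_lit 256) C2_4 = true := by decide +kernel
def sc2_4 : stCov (nat_lit 2) (nat_lit 146) (Rl.cons (nat_lit 146) (nat_lit 14) Rl.nil) C2_4 = true := by decide +kernel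
def wf2_5 : wfC (nat_lit 61) (nat_lit 11) C2_5 = true := by decide +kernel
def rf2_5 : rfCk (nat_lit 59) (nat_lit 5) (nat_lit 61) (nat_lit 11) (nat_lit 9) (nat_lit 0) (nat_lit 5) TL2 CL1 CL2 = true := by decide +kernel
def st2_5_0 : starCk (nat_lit 61) (nat_lit 11) (nat_lit 1) (nat_lit 5) (nat_lit 22) (nat_lit 44) (nat_lit 16) C2_5 = true := by decide +kernel
def sc2_5 : stCov (nat_lit 1) (nat_lit 44) (Rl.cons (nat_lit 44) (nat_lit 22) Rl.nil) C2_5 = true := by decide +kernel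
def wf2_6 : wfC (nat_lit 61) (nat_lit 11) C2_6 = true := by decide +kernel
def rf2_6 : rfCk (nat_lit 59) (nat_lit 5) (nat_lit 61) (nat_lit 11) (nat_lit 9) (nat_lit 0) (nat_lit 6) TL2 CL1 CL2 = true := by decide +kernel
def st2_6_0 : starCk (nat_lit 61) (nat_lit 11) (nat_lit 1) (nat_lit 5) (nat_lit 13) (nat_lit 44) (nat_lit 256) C2_6 = true := by decide +kernel
def sc2_6 : stCov (nat_lit 2) (nat_lit 44) (Rl.cons (nat_lit 44) (nat_lit 13) Rl.nil) C2_6 = true := by decide +kernel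
def wf2_7 : wfC (nat_lit 61) (nat_lit 11) C2_7 = true := by decide +kernel
def rf2_7 : rfCk (nat_lit 59) (nat_lit 5) (nat_lit 61) (nat_lit 11) (nat_lit 9) (nat_lit 0) (nat_lit 7) TL2 CL1 CL2 = true := by decide +kernel
def st2_7_0 : starCk (nat_lit 61) (nat_lit 11) (nat_lit 1) (nat_lit 5) (nat_lit 12) (nat_lit 56) (nat_lit 16) C2_7 = true := by decide +kernel
def sc2_7 : stCov (nat_lit 1) (nat_lit 56) (Rl.cons (nat_lit 56) (nat_lit 12) Rl.nil) C2_7 = true := by decide +kernel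
def wf2_8 : wfC (nat_lit 61) (nat_lit 11) C2_8 = true := by decide +kernel
def rf2_8 : rfCk (nat_lit 59) (nat_lit 5) (nat_lit 61) (nat_lit 11) (nat_lit 9) (nat_lit 0) (nat_lit 8) TL2 CL1 CL2 = true := by decide +kernel
def st2_8_0 : starCk (nat_lit 61) (nat_lit 11) (nat_lit 1) (nat_lit 5) (nat_lit 4) (nat_lit 58) (nat_lit 256) C2_8 = true := by decide +kernel
def sc2_8 : stCov (nat_lit 2) (nat_lit 58) (Rl.cons (nat_lit 58) (nat_lit 4) Rl.nil) C2_8 = true := by decide +kernel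
def wf2_12 : wfC (nat_lit 61) (nat_lit 11) C2_12 = true := by decide +kernel
def rf2_12 : rfCk (nat_lit 59) (nat_lit 5) (nat_lit 61) (nat_lit 11) (nat_lit 9) (nat_lit 0) (nat_lit 12) TL2 CL1 CL2 = true := by decide +kernel
def st2_12_0 : starCk (nat_lit 61) (nat_lit 11) (nat_lit 1) (nat_lit 5) (nat_lit 193) (nat_lit 244) (nat_lit 4096) C2_12 = true := by decide +kernel
def sc2_12 : stCov (nat_lit 3) (nat_lit 244) (Rl.cons (nat_lit 244) (nat_lit 193) Rl.nil) C2_12 = true := by decide +kernel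
def wf2_13 : wfC (nat_lit 61) (nat_lit 11) C2_13 = true := by decide +kernel
def rf2_13 : rfCk (nat_lit 59) (nat_lit 5) (nat_lit 61) (nat_lit 11) (nat_lit 9) (nat_lit 0) (nat_lit 13) TL2 CL1 CL2 = true := by decide +kernel
def st2_13_0 : starCk (nat_lit 61) (nat_lit 11) (nat_lit 1) (nat_lit 5) (nat_lit 73) (nat_lit 226) (nat_lit 16) C2_13 = true := by decide +kernel
def sc2_13 : stCov (nat_lit 1) (nat_lit 226) (Rl.cons (nat_lit 226) (nat_lit 73) Rl.nil) C2_13 = true := by decide +kernel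
def wf2_14 : wfC (nat_lit 61) (nat_lit 11) C2_14 = true := by decide +kernel
def rf2_14 : rfCk (nat_lit 59) (nat_lit 5) (nat_lit 61) (nat_lit 11) (nat_lit 9) (nat_lit 0) (nat_lit 14) TL2 CL1 CL2 = true := by decide +kernel
def st2_14_0 : starCk (nat_lit 61) (nat_lit 11) (nat_lit 1) (nat_lit 5) (nat_lit 82) (nat_lit 204) (nat_lit 16) C2_14 = true := by decide +kernel
def sc2_14 : stCov (nat_lit 1) (nat_lit 204) (Rl.cons (nat_lit 204) (nat_lit 82) Rl.nil) C2_14 = true := by decide +kernel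
def wf2_15 : wfC (nat_lit 61) (nat_lit 11) C2_15 = true := by decide +kernel
def rf2_15 : rfCk (nat_lit 59) (nat_lit 5) (nat_lit 61) (nat_lit 11) (nat_lit 9) (nat_lit 0) (nat_lit 15) TL2 CL1 CL2 = true := by decide +kernel
def st2_15_0 : starCk (nat_lit 61) (nat_lit 11) (nat_lit 1) (nat_lit 5) (nat_lit 49) (nat_lit 111) (nat_lit 256) C2_15 = true := by decide +kernel
def sc2_15 : stCov (nat_lit 2) (nat_lit 111) (Rl.cons (nat_lit 111) (nat_lit 49) Rl.nil) C2_15 = true := by decide +kernel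
def wf2_16 : wfC (nat_lit 61) (nat_lit 11) C2_16 = true := by decide +kernel
def rf2_16 : rfCk (nat_lit 59) (nat_lit 5) (nat_lit 61) (nat_lit 11) (nat_lit 9) (nat_lit 0) (nat_lit 16) TL2 CL1 CL2 = true := by decide +kernel
def st2_16_0 : starCk (nat_lit 61) (nat_lit 11) (nat_lit 1) (nat_lit 5) (nat_lit 37) (nat_lit 132) (nat_lit 16) C2_16 = true := by decide +kernel
def sc2_16 : stCov (nat_lit 1) (nat_lit 132) (Rl.cons (nat_lit 132) (nat_lit 37) Rl.nil) C2_16 = true := by decide +kernel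

end Pool.Agent.NNr.R13_1_4_5
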