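import Pool.Agent.NNr.R13_1_4_5.D0
import Pool.Agent.NNr.R13_1_4_5.D1
import Pool.Agent.NNr.R13_1_4_5.D2
import Pool.Agent.NNr.R13_1_4_5.D3
import Pool.Agent.NNe.Slots

set_option linter.all false
set_option maxRecDepth 1000000
namespace Pool.Agent.NNr.R13_1_4_5

open Pool.Agent.NNe

def ti2_0 : tileCk (nat_lit 61) (nat_lit 11) (nat_lit 2) (nat_lit 5) (nat_lit 293) (nat_lit 13) (nat_lit 18) ZL2_0 CL2 = true := by decide +kernel
def zl2_0 : zlOK (nat_lit 293) ZL2_0 = true := by decide +kernel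
def ti2_1 : tileCk (nat_lit 61) (nat_lit 11) (nat_lit 2) (nat_lit 5) (nat_lit 50) (nat_lit 13) (nat_lit 18) ZL2_1 CL2 = true := by decide +kernel
def zl2_1 : zlOK (nat_lit 50) ZL2_1 = true := by decide +kernel
def tc2_0 : tiCov (nat_lit 1) (nat_lit 0) ZZ2 C2_0 = true := by decide +kernel
def tc2_1 : tiCov (nat_lit 1) (nat_lit 1) ZZ2 C2_1 = true := by decide +kernel
def tc2_2 : tiCov (nat_lit 1) (nat_lit 2) ZZ2 C2_2 = true := by decide +kernel
def tc2_3 : tiCov (nat_lit 1) (nat_lit 3) ZZ2 C2_3 = true := by decide +kernel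
def tc2_4 : tiCov (nat_lit 1) (nat_lit 4) ZZ2 C2_4 = true := by decide +kernel
def tc2_5 : tiCov (nat_lit 1) (nat_lit 5) ZZ2 C2_5 = true := by decide +kernel
def tc2_6 : tiCov (nat_lit 1) (nat_lit 6) ZZ2 C2_6 = true := by decide +kernel
def tc2_7 : tiCov (nat_lit 1) (nat_lit 7) ZZ2 C2_7 = true := by decide +kernel
def tc2_8 : tiCov (nat_lit 1) (nat_lit 8) ZZ2 C2_8 = true := by decide +kernel
def tc2_12 : tiCov (nat_lit 1) (nat_lit 12) ZZ2 C2_12 = true := by decide +kernel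
def tc2_13 : tiCov (nat_lit 1) (nat_lit 13) ZZ2 C2_13 = true := by decide +kernel
def tc2_14 : tiCov (nat_lit 1) (nat_lit 14) ZZ2 C2_14 = true := by decide +kernel
def tc2_15 : tiCov (nat_lit 1) (nat_lit 15) ZZ2 C2_15 = true := by decide +kernel
def tc2_16 : tiCov (nat_lit 1) (nat_lit 16) ZZ2 C2_16 = true := by decide +kernel
def wf3_0 : wfC (nat_lit 37) (nat_lit 7) C3_0 = true := by decide +kernel
def rf3_0 : rfCk (nat_lit 61) (nat_lit 11) (nat_lit 37) (nat_lit 7) (nat_lit 9) (nat_lit 0) (nat_lit 0) TL3 CL2 CL3 = true := by decide +kernel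
def st3_0_0 : starCk (nat_lit 37) (nat_lit 7) (nat_lit 1) (nat_lit 3) (nat_lit 4) (nat_lit 0) (nat_lit 256) C3_0 = true := by decide +kernel
def sc3_0 : stCov (nat_lit 2) (nat_lit 0) (Rl.cons (nat_lit 0) (nat_lit 4) Rl.nil) C3_0 = true := by decide +kernel
def wf3_1 : wfC (nat_lit 37) (nat_lit 7) C3_1 = true := by decide +kernel
def rf3_1 : rfCk (nat_lit 61) (nat_lit 11) (nat_lit 37) (nat_lit 7) (nat_lit 9) (nat_lit 0) (nat_lit 1) TL3 CL2 CL3 = true := by decide +kernel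
def st3_1_0 : starCk (nat_lit 37) (nat_lit 7) (nat_lit 1) (nat_lit 3) (nat_lit 3) (nat_lit 0) (nat_lit 16) C3_1 = true := by decide +kernel
def sc3_1 : stCov (nat_lit 1) (nat_lit 0) (Rl.cons (nat_lit 0) (nat_lit 3) Rl.nil) C3_1 = true := by decide +kernel
def wf3_2 : wfC (nat_lit 37) (nat_lit 7) C3_2 = true := by decide +kernel
def rf3_2 : rfCk (nat_lit 61) (nat_lit 11) (nat_lit 37) (nat_lit 7) (nat_lit 9) (nat_lit 0) (nat_lit 2) TL3 CL2 CL3 = true := by decide +kernel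
def st3_2_0 : starCk (nat_lit 37) (nat_lit 7) (nat_lit 1) (nat_lit 3) (nat_lit 8) (nat_lit 9) (nat_lit 1) C3_2 = true := by decide +kernel
def sc3_2 : stCov (nat_lit 0) (nat_lit 9) (Rl.cons (nat_lit 9) (nat_lit 8) Rl.nil) C3_2 = true := by decide +kernel
def wf3_3 : wfC (nat_lit 37) (nat_lit 7) C3_3 = true := by decide +kernel
def rf3_3 : rfCk (nat_lit 61) (nat_lit 11) (nat_lit 37) (nat_lit 7) (nat_lit 9) (nat_lit 0) (nat_lit 3) TL3 CL2 CL3 = true := by decide +kernel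
def st3_3_0 : starCk (nat_lit 37) (nat_lit 7) (nat_lit 1) (nat_lit 3) (nat_lit 16) (nat_lit 83) (nat_lit 256) C3_3 = true := by decide +kernel
def sc3_3 : stCov (nat_lit 2) (nat_lit 83) (Rl.cons (nat_lit 83) (nat_lit 16) Rl.nil) C3_3 = true := by decide +kernel
def wf3_4 : wfC (nat_lit 37) (nat_lit 7) C3_4 = true := by decide +kernel
def rf3_4 : rfCk (nat_lit 61) (nat_lit 11) (nat_lit 37) (nat_lit 7) (nat_lit 9) (nat_lit 0) (nat_lit 4) TL3 CL2 CL3 = true := by decide +kernel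
def st3_4_0 : starCk (nat_lit 37) (nat_lit 7) (nat_lit 1) (nat_lit 3) (nat_lit 6) (nat_lit 72) (nat_lit 256) C3_4 = true := by decide +kernel
def sc3_4 : stCov (nat_lit 2) (nat_lit 72) (Rl.cons (nat_lit 72) (nat_lit 6) Rl.nil) C3_4 = true := by decide +kernel
def wf3_5 : wfC (nat_lit 37) (nat_lit 7) C3_5 = true := by decide +kernel
def rf3_5 : rfCk (nat_lit 61) (nat_lit 11) (nat_lit 37) (nat_lit 7) (nat_lit 9) (nat_lit 0) (nat_lit 5) TL3 CL2 CL3 = true := by decide +kernel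
def st3_5_0 : starCk (nat_lit 37) (nat_lit 7) (nat_lit 1) (nat_lit 3) (nat_lit 9) (nat_lit 12) (nat_lit 1) C3_5 = true := by decide +kernel
def sc3_5 : stCov (nat_lit 0) (nat_lit 12) (Rl.cons (nat_lit 12) (nat_lit 9) Rl.nil) C3_5 = true := by decide +kernel
def wf3_7 : wfC (nat_lit 37) (nat_lit 7) C3_7 = true := by decide +kernel
def rf3_7 : rfCk (nat_lit 61) (nat_lit 11) (nat_lit 37) (nat_lit 7) (nat_lit 9) (nat_lit 0) (nat_lit 7) TL3 CL2 CL3 = true := by decide +kernel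
def st3_7_0 : starCk (nat_lit 37) (nat_lit 7) (nat_lit 1) (nat_lit 3) (nat_lit 6) (nat_lit 28) (nat_lit 16) C3_7 = true := by decide +kernel
def sc3_7 : stCov (nat_lit 1) (nat_lit 28) (Rl.cons (nat_lit 28) (nat_lit 6) Rl.nil) C3_7 = true := by decide +kernel
def wf3_12 : wfC (nat_lit 37) (nat_lit 7) C3_12 = true := by decide +kernel
def rf3_12 : rfCk (nat_lit 61) (nat_lit 11) (nat_lit 37) (nat_lit 7) (nat_lit 9) (nat_lit 0) (nat_lit 12) TL3 CL2 CL3 = true := by decide +kernel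
def st3_12_0 : starCk (nat_lit 37) (nat_lit 7) (nat_lit 1) (nat_lit 3) (nat_lit 49) (nat_lit 66) (nat_lit 4096) C3_12 = true := by decide +kernel
def sc3_12 : stCov (nat_lit 3) (nat_lit 66) (Rl.cons (nat_lit 66) (nat_lit 49) Rl.nil) C3_12 = true := by decide +kernel
def wf3_13 : wfC (nat_lit 37) (nat_lit 7) C3_13 = true := by decide +kernel
def rf3_13 : rfCk (nat_lit 61) (nat_lit 11) (nat_lit 37) (nat_lit 7) (nat_lit 9) (nat_lit 0) (nat_lit 13) TL3 CL2 CL3 = true := by decide +kernel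
def st3_13_0 : starCk (nat_lit 37) (nat_lit 7) (nat_lit 1) (nat_lit 3) (nat_lit 27) (nat_lit 64) (nat_lit 16) C3_13 = true := by decide +kernel
def sc3_13 : stCov (nat_lit 1) (nat_lit 64) (Rl.cons (nat_lit 64) (nat_lit 27) Rl.nil) C3_13 = true := by decide +kernel
def wf3_14 : wfC (nat_lit 37) (nat_lit 7) C3_14 = true := by decide +kernel
def rf3_14 : rfCk (nat_lit 61) (nat_lit 11) (nat_lit 37) (nat_lit 7) (nat_lit 9) (nat_lit 0) (nat_lit 14) TL3 CL2 CL3 = true := by decide +kernel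
def st3_14_0 : starCk (nat_lit 37) (nat_lit 7) (nat_lit 1) (nat_lit 3) (nat_lit 38) (nat_lit 95) (nat_lit 4096) C3_14 = true := by decide +kernel
def sc3_14 : stCov (nat_lit 3) (nat_lit 95) (Rl.cons (nat_lit 95) (nat_lit 38) Rl.nil) C3_14 = true := by decide +kernel
def wf3_15 : wfC (nat_lit 37) (nat_lit 7) C3_15 = true := by decide +kernel
def rf3_15 : rfCk (nat_lit 61) (nat_lit 11) (nat_lit 37) (nat_lit 7) (nat_lit 9) (nat_lit 0) (nat_lit 15) TL3 CL2 CL3 = true := by decide +kernel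
def st3_15_0 : starCk (nat_lit 37) (nat_lit 7) (nat_lit 1) (nat_lit 3) (nat_lit 12) (nat_lit 21) (nat_lit 256) C3_15 = true := by decide +kernel
def sc3_15 : stCov (nat_lit 2) (nat_lit 21) (Rl.cons (nat_lit 21) (nat_lit 12) Rl.nil) C3_15 = true := by decide +kernel
def wf3_16 : wfC (nat_lit 37) (nat_lit 7) C3_16 = true := by decide +kernel
def rf3_16 : rfCk (nat_lit 61) (nat_lit 11) (nat_lit 37) (nat_lit 7) (nat_lit 9) (nat_lit 0) (nat_lit 16) TL3 CL2 CL3 = true := by decide +kernel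
def st3_16_0 : starCk (nat_lit 37) (nat_lit 7) (nat_lit 1) (nat_lit 3) (nat_lit 18) (nat_lit 52) (nat_lit 16) C3_16 = true := by decide +kernel
def sc3_16 : stCov (nat_lit 1) (nat_lit 52) (Rl.cons (nat_lit 52) (nat_lit 18) Rl.nil) C3_16 = true := by decide +kernel
def ti3_0 : tileCk (nat_lit 37) (nat_lit 7) (nat_lit 2) (nat_lit 3) (nat_lit 128) (nat_lit 13) (nat_lit 18) ZL3_0 CL3 = true := by decide +kernel
def zl3_0 : zlOK (nat_lit 128) ZL3_0 = true := by decide +kernel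
def ti3_1 : tileCk (nat_lit 37) (nat_lit 7) (nat_lit 2) (nat_lit 3) (nat_lit 12) (nat_lit 13) (nat_lit 18) ZL3_1 CL3 = true := by decide +kernel
def zl3_1 : zlOK (nat_lit 12) ZL3_1 = true := by decide +kernel
def tc3_0 : tiCov (nat_lit 1) (nat_lit 0) ZZ3 C3_0 = true := by decide +kernel
def tc3_1 : tiCov (nat_lit 1) (nat_lit 1) ZZ3 C3_1 = true := by decide +kernel
def tc3_2 : tiCov (nat_lit 1) (nat_lit 2) ZZ3 C3_2 = true := by decide +kernel
def tc3_3 : tiCov (nat_lit 1) (nat_lit 3) ZZ3 C3_3 = true := by decide +kernel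
def tc3_4 : tiCov (nat_lit 1) (nat_lit 4) ZZ3 C3_4 = true := by decide +kernel
def tc3_5 : tiCov (nat_lit 1) (nat_lit 5) ZZ3 C3_5 = true := by decide +kernel
def tc3_7 : tiCov (nat_lit 1) (nat_lit 7) ZZ3 C3_7 = true := by decide +kernel
def tc3_12 : tiCov (nat_lit 1) (nat_lit 12) ZZ3 C3_12 = true := by decide +kernel
def tc3_13 : tiCov (nat_lit 1) (nat_lit 13) ZZ3 C3_13 = true := by decide +kernel
def tc3_14 : tiCov (nat_lit 1) (nat_lit 14) ZZ3 C3_14 = true := by decide +kernel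
def tc3_15 : tiCov (nat_lit 1) (nat_lit 15) ZZ3 C3_15 = true := by decide +kernel
def tc3_16 : tiCov (nat_lit 1) (nat_lit 16) ZZ3 C3_16 = true := by decide +kernel
def de3_0 : deadCk (nat_lit 37) (nat_lit 7) C3_0 = true := by decide +kernel
def de3_1 : deadCk (nat_lit 37) (nat_lit 7) C3_1 = true := by decide +kernel
def de3_2 : deadCk (nat_lit 37) (nat_lit 7) C3_2 = true := by decide +kernel
def de3_3 : deadCk (nat_lit 37) (nat_lit 7) C3_3 = true := by decide +kernel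
def de3_4 : deadCk (nat_lit 37) (nat_lit 7) C3_4 = true := by decide +kernel
def de3_5 : deadCk (nat_lit 37) (nat_lit 7) C3_5 = true := by decide +kernel
def de3_7 : deadCk (nat_lit 37) (nat_lit 7) C3_7 = true := by decide +kernel
def de3_12 : deadCk (nat_lit 37) (nat_lit 7) C3_12 = true := by decide +kernel
def de3_13 : deadCk (nat_lit 37) (nat_lit 7) C3_13 = true := by decide +kernel
def de3_14 : deadCk (nat_lit 37) (nat_lit 7) C3_14 = true := by decide +kernel
def de3_15 : deadCk (nat_lit 37) (nat_lit 7) C3_15 = true := by decide +kernel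
def de3_16 : deadCk (nat_lit 37) (nat_lit 7) C3_16 = true := by decide +kernel
def wf1_9 : wfC (nat_lit 59) (nat_lit 5) C1_9 = true := by decide +kernel
def wf1_10 : wfC (nat_lit 59) (nat_lit 5) C1_10 = true := by decide +kernel
def wf1_11 : wfC (nat_lit 59) (nat_lit 5) C1_11 = true := by decide +kernel
def wf1_17 : wfC (nat_lit 59) (nat_lit 5) C1_17 = true := by decide +kernel
def rf1_9 : rfCk (nat_lit 59) (nat_lit 5) (nat_lit 59) (nat_lit 5) (nat_lit 1) (nat_lit 262144) (nat_lit 9) TL1 CL0 CL1 = true := by decide +kernel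
def rf1_10 : rfCk (nat_lit 59) (nat_lit 5) (nat_lit 59) (nat_lit 5) (nat_lit 1) (nat_lit 262144) (nat_lit 10) TL1 CL0 CL1 = true := by decide +kernel
def rf1_11 : rfCk (nat_lit 59) (nat_lit 5) (nat_lit 59) (nat_lit 5) (nat_lit 1) (nat_lit 262144) (nat_lit 11) TL1 CL0 CL1 = true := by decide +kernel
def rf1_17 : rfCk (nat_lit 59) (nat_lit 5) (nat_lit 59) (nat_lit 5) (nat_lit 1) (nat_lit 262144) (nat_lit 17) TL1 CL0 CL1 = true := by decide +kernel
def sc1_9 : stCov (nat_lit 0) (nat_lit 0) Rl.nil C1_9 = true := by decide +kernel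
def sc1_10 : stCov (nat_lit 0) (nat_lit 0) Rl.nil C1_10 = true := by decide +kernel
def sc1_11 : stCov (nat_lit 0) (nat_lit 0) Rl.nil C1_11 = true := by decide +kernel
def sc1_17 : stCov (nat_lit 0) (nat_lit 0) Rl.nil C1_17 = true := by decide +kernel
def tc1_9 : tiCov (nat_lit 1) (nat_lit 9) ZZ1 C1_9 = true := by decide +kernel
def tc1_10 : tiCov (nat_lit 1) (nat_lit 10) ZZ1 C1_10 = true := by decide +kernel
def tc1_11 : tiCov (nat_lit 1) (nat_lit 11) ZZ1 C1_11 = true := by decide +kernel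
def tc1_17 : tiCov (nat_lit 1) (nat_lit 17) ZZ1 C1_17 = true := by decide +kernel
def wf2_9 : wfC (nat_lit 61) (nat_lit 11) C2_9 = true := by decide +kernel
def wf2_10 : wfC (nat_lit 61) (nat_lit 11) C2_10 = true := by decide +kernel
def wf2_11 : wfC (nat_lit 61) (nat_lit 11) C2_11 = true := by decide +kernel
def wf2_17 : wfC (nat_lit 61) (nat_lit 11) C2_17 = true := by decide +kernel
def rf2_9 : rfCk (nat_lit 59) (nat_lit 5) (nat_lit 61) (nat_lit 11) (nat_lit 9) (nat_lit 0) (nat_lit 9) TL2 CL1 CL2 = true := by decide +kernel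
def rf2_10 : rfCk (nat_lit 59) (nat_lit 5) (nat_lit 61) (nat_lit 11) (nat_lit 9) (nat_lit 0) (nat_lit 10) TL2 CL1 CL2 = true := by decide +kernel
def rf2_11 : rfCk (nat_lit 59) (nat_lit 5) (nat_lit 61) (nat_lit 11) (nat_lit 9) (nat_lit 0) (nat_lit 11) TL2 CL1 CL2 = true := by decide +kernel
def rf2_17 : rfCk (nat_lit 59) (nat_lit 5) (nat_lit 61) (nat_lit 11) (nat_lit 9) (nat_lit 0) (nat_lit 17) TL2 CL1 CL2 = true := by decide +kernel
def sc2_9 : stCov (nat_lit 0) (nat_lit 0) Rl.nil C2_9 = true := by decide +kernel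
def sc2_10 : stCov (nat_lit 0) (nat_lit 0) Rl.nil C2_10 = true := by decide +kernel
def sc2_11 : stCov (nat_lit 0) (nat_lit 0) Rl.nil C2_11 = true := by decide +kernel
def sc2_17 : stCov (nat_lit 0) (nat_lit 0) Rl.nil C2_17 = true := by decide +kernel
def tc2_9 : tiCov (nat_lit 1) (nat_lit 9) ZZ2 C2_9 = true := by decide +kernel
def tc2_10 : tiCov (nat_lit 1) (nat_lit 10) ZZ2 C2_10 = true := by decide +kernel
def tc2_11 : tiCov (nat_lit 1) (nat_lit 11) ZZ2 C2_11 = true := by decide +kernel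
def tc2_17 : tiCov (nat_lit 1) (nat_lit 17) ZZ2 C2_17 = true := by decide +kernel
def wf3_6 : wfC (nat_lit 37) (nat_lit 7) C3_6 = true := by decide +kernel
def wf3_8 : wfC (nat_lit 37) (nat_lit 7) C3_8 = true := by decide +kernel
def wf3_9 : wfC (nat_lit 37) (nat_lit 7) C3_9 = true := by decide +kernel
def wf3_10 : wfC (nat_lit 37) (nat_lit 7) C3_10 = true := by decide +kernel
def wf3_11 : wfC (nat_lit 37) (nat_lit 7) C3_11 = true := by decide +kernel
def wf3_17 : wfC (nat_lit 37) (nat_lit 7) C3_17 = true := by decide +kernel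
def rf3_6 : rfCk (nat_lit 61) (nat_lit 11) (nat_lit 37) (nat_lit 7) (nat_lit 9) (nat_lit 0) (nat_lit 6) TL3 CL2 CL3 = true := by decide +kernel
def rf3_8 : rfCk (nat_lit 61) (nat_lit 11) (nat_lit 37) (nat_lit 7) (nat_lit 9) (nat_lit 0) (nat_lit 8) TL3 CL2 CL3 = true := by decide +kernel
def rf3_9 : rfCk (nat_lit 61) (nat_lit 11) (nat_lit 37) (nat_lit 7) (nat_lit 9) (nat_lit 0) (nat_lit 9) TL3 CL2 CL3 = true := by decide +kernel
def rf3_10 : rfCk (nat_lit 61) (nat_lit 11) (nat_lit 37) (nat_lit 7) (nat_lit 9) (nat_lit 0) (nat_lit 10) TL3 CL2 CL3 = true := by decide +kernel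
def rf3_11 : rfCk (nat_lit 61) (nat_lit 11) (nat_lit 37) (nat_lit 7) (nat_lit 9) (nat_lit 0) (nat_lit 11) TL3 CL2 CL3 = true := by decide +kernel
def rf3_17 : rfCk (nat_lit 61) (nat_lit 11) (nat_lit 37) (nat_lit 7) (nat_lit 9) (nat_lit 0) (nat_lit 17) TL3 CL2 CL3 = true := by decide +kernel
def sc3_6 : stCov (nat_lit 0) (nat_lit 0) Rl.nil C3_6 = true := by decide +kernel
def sc3_8 : stCov (nat_lit 0) (nat_lit 0) Rl.nil C3_8 = true := by decide +kernel
def sc3_9 : stCov (nat_lit 0) (nat_lit 0) Rl.nil C3_9 = true := by decide +kernel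
def sc3_10 : stCov (nat_lit 0) (nat_lit 0) Rl.nil C3_10 = true := by decide +kernel
def sc3_11 : stCov (nat_lit 0) (nat_lit 0) Rl.nil C3_11 = true := by decide +kernel
def sc3_17 : stCov (nat_lit 0) (nat_lit 0) Rl.nil C3_17 = true := by decide +kernel
def tc3_6 : tiCov (nat_lit 1) (nat_lit 6) ZZ3 C3_6 = true := by decide +kernel
def tc3_8 : tiCov (nat_lit 1) (nat_lit 8) ZZ3 C3_8 = true := by decide +kernel
def tc3_9 : tiCov (nat_lit 1) (nat_lit 9) ZZ3 C3_9 = true := by decide +kernel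
def tc3_10 : tiCov (nat_lit 1) (nat_lit 10) ZZ3 C3_10 = true := by decide +kernel
def tc3_11 : tiCov (nat_lit 1) (nat_lit 11) ZZ3 C3_11 = true := by decide +kernel
def tc3_17 : tiCov (nat_lit 1) (nat_lit 17) ZZ3 C3_17 = true := by decide +kernel
def de3_6 : deadCk (nat_lit 37) (nat_lit 7) C3_6 = true := by decide +kernel
def de3_8 : deadCk (nat_lit 37) (nat_lit 7) C3_8 = true := by decide +kernel
def de3_9 : deadCk (nat_lit 37) (nat_lit 7) C3_9 = true := by decide +kernel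
def de3_10 : deadCk (nat_lit 37) (nat_lit 7) C3_10 = true := by decide +kernel
def de3_11 : deadCk (nat_lit 37) (nat_lit 7) C3_11 = true := by decide +kernel
def de3_17 : deadCk (nat_lit 37) (nat_lit 7) C3_17 = true := by decide +kernel

end Pool.Agent.NNr.R13_1_4_5
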